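import Mathlib

namespace Pool.Agent.Results.MP_2aafb6_co.Shift
open Finset

def Adm (b c n : ℕ) (a : ℕ → ℕ) : Prop :=
  a 0 = 0 ∧ (∀ i < n, a i < a (i + 1)) ∧ ∀ i, i + b ≤ n → a (i + b) ≤ a i + c

def Hits (k n : ℕ) (a : ℕ → ℕ) : Prop := ∃ i j, i < j ∧ j ≤ n ∧ a j = a i + k

/-- the positive `n` for which every admissible sequence `a 0, …, a n` hits `k` -/
def Good (b c k : ℕ) : Set ℕ := {n | 0 < n ∧ ∀ a, Adm b c n a → Hits k n a}

lemma mono {n : ℕ} {a : ℕ → ℕ} (h : ∀ i < n, a i < a (i + 1)) {i j : ℕ} (hij : i < j) (hj : j ≤ n) :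
    a i < a j := by
  induction hij with
  | refl => exact h _ hj
  | step _ ih => exact (ih (by omega)).trans (h _ hj)

lemma lt_of {n : ℕ} {a : ℕ → ℕ} (h : ∀ i < n, a i < a (i + 1)) {i j : ℕ} (hi : i ≤ n)
    (hij : a i < a j) (hj : j ≤ n) : i < j := by
  by_contra c
  rcases (not_lt.1 c).eq_or_lt with rfl | e
  · omega
  · have := mono h e hi; omega

lemma window {k n : ℕ} (hk : 0 < k) {a : ℕ → ℕ} (h : ∀ i < n, a i < a (i + 1)) (h' : ¬ Hits k n a)
    (i : ℕ) (hi : i + k ≤ n) : a i + 2 * k ≤ a (i + k) := by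
  by_contra c
  obtain ⟨x, hx, y, hy, xy, e⟩ := exists_ne_map_eq_of_card_lt_of_maps_to (s := range (k + 1))
    (t := range k) (by simp) (f := fun j => a (i + j) % k) (fun j _ => by simp [Nat.mod_lt _ hk])
  wlog l : x < y generalizing x y
  · exact this y hy x hx xy.symm e.symm (by omega)
  rw [mem_range] at hx hy
  have m1 := mono h (show i + x < i + y by omega) (by omega)
  have m2 : a i ≤ a (i + x) := by
    rcases Nat.eq_zero_or_pos x with rfl | p
    · simp
    · exact (mono h (by omega) (by omega)).le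
  have m3 : a (i + y) ≤ a (i + k) := by
    rcases (show y ≤ k by omega).eq_or_lt with rfl | p
    · simp
    · exact (mono h (by omega) (by omega)).le
  obtain ⟨q, hq⟩ := (Nat.modEq_iff_dvd' m1.le).1 e
  have : q = 1 := by
    rcases q with _ | _ | q
    · omega
    · rfl
    · have : k * (q + 1 + 1) = 2 * k + k * q := by ring
      omega
  subst this
  exact h' ⟨i + x, i + y, by omega, by omega, by omega⟩

lemma small {b c k n : ℕ} (hk : 0 < k) (hc : c < 2 * b) {a : ℕ → ℕ} (h : Adm b c n a) (h' : ¬ Hits k n a)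
    (j : ℕ) (hj : j + b ≤ n) : a j ≤ k := by
  by_contra cc
  obtain ⟨h0, h1, h2⟩ := h
  let i := Nat.findGreatest (fun i => a i + k ≤ a j) j
  have i1 : a i + k ≤ a j := Nat.findGreatest_spec (P := fun i => a i + k ≤ a j) (Nat.zero_le j)
    (by omega)
  have i2 : i ≤ j := Nat.findGreatest_le j
  have i3 : a j ≤ a (i + 1) + k := by
    rcases i2.eq_or_lt with e | e
    · have := h1 i (by omega); rw [← e]; omega
    · have := Nat.findGreatest_is_greatest (P := fun i => a i + k ≤ a j) (Nat.lt_succ_self i) e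
      simp only [Nat.succ_eq_add_one] at this; omega
  have le : ∀ x y, x ≤ y → y ≤ n → a x ≤ a y := fun x y p q => by
    rcases p.eq_or_lt with rfl | p
    · rfl
    · exact (mono h1 p q).le
  have inj : ∀ x y, x ≤ n → y ≤ n → a x = a y → x = y := fun x y p q e => by
    rcases lt_trichotomy x y with l | l | l
    · have := mono h1 l q; omega
    · exact l
    · have := mono h1 l p; omega
  have sub : (range (b + 1)).image (fun x => a (j + x)) ∪ (range b).image (fun x => a (i + 1 + x) + k)
      ⊆ Icc (a j) (a j + c) := by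
    intro v hv
    simp only [mem_union, mem_image, mem_range, mem_Icc] at hv ⊢
    rcases hv with ⟨x, hx, rfl⟩ | ⟨x, hx, rfl⟩
    · exact ⟨le _ _ (by omega) (by omega), (le _ _ (by omega) hj).trans (h2 j hj)⟩
    · have := le (i + 1) (i + 1 + x) (by omega) (by omega)
      have := le (i + 1 + x) (i + b) (by omega) (by omega)
      have := h2 i (by omega)
      omega
  have := card_le_card sub
  rw [card_union_of_disjoint, card_image_of_injOn, card_image_of_injOn] at this
  · simp at this; omega
  · intro x hx y hy e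
    simp only [coe_range, Set.mem_Iio] at hx hy
    have := inj (i + 1 + x) (i + 1 + y) (by omega) (by omega) (by simpa using e); omega
  · intro x hx y hy e
    simp only [coe_range, Set.mem_Iio] at hx hy
    have := inj (j + x) (j + y) (by omega) (by omega) e; omega
  · rw [disjoint_left]
    simp only [mem_image, mem_range]
    rintro _ ⟨x, hx, rfl⟩ ⟨y, hy, e⟩
    exact h' ⟨i + 1 + y, j + x, lt_of h1 (by omega) (by omega) (by omega), by omega, e.symm⟩

open Classical in
noncomputable def fill (k A : ℕ) (hk : 0 < k) (p : ℕ → Prop) (x : ℕ) : Prop :=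
  if x ≤ A then p x else if x < k then True else ¬ fill k A hk p (x - k)
termination_by x
decreasing_by omega

lemma extend {b c k n : ℕ} (hk : 0 < k) (hc : c < 2 * b) {a : ℕ → ℕ} (h : Adm b c n a)
    (h' : ¬ Hits k n a) : ∃ a', Adm (b + k) (c + 2 * k) (n + k) a' ∧ ¬ Hits k (n + k) a' := by
  classical
  let p := fill k (a n) hk (fun x => ∃ i ≤ n, a i = x)
  have p1 : ∀ x ≤ a n, p x ↔ ∃ i ≤ n, a i = x := fun x hx => by simp only [p]; rw [fill]; simp [hx]
  have p2 : ∀ x, a n < x + k → (p (x + k) ↔ ¬ p x) := fun x hx => by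
    simp only [p]; rw [fill]; simp [not_le.2 hx]
  have le : ∀ x y, x ≤ y → y ≤ n → a x ≤ a y := fun x y p q => by
    rcases p.eq_or_lt with rfl | p
    · rfl
    · exact (mono h.2.1 p q).le
  have inf : (setOf p).Infinite := Set.infinite_of_forall_exists_gt fun x => by
    by_cases e : p (x + a n + 1)
    · exact ⟨_, e, by omega⟩
    · exact ⟨_, (p2 _ (by omega)).2 e, by omega⟩
  have win : ∀ y, a n < y + k → ∀ j, Nat.count p (y + k + j) + Nat.count p (y + j) =
      Nat.count p (y + k) + Nat.count p y + j := by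
    intro y hy j
    induction j with
    | zero => rfl
    | succ j ih =>
      rw [← add_assoc, ← add_assoc, Nat.count_succ, Nat.count_succ]
      have := p2 (y + j) (by omega)
      rw [show y + j + k = y + k + j by ring] at this
      by_cases e : p (y + j) <;> simp [e, this] <;> omega
  refine ⟨Nat.nth p, ⟨Nat.nth_zero_of_zero ((p1 0 (by omega)).2 ⟨0, by omega, h.1⟩),
    fun i _ => Nat.nth_strictMono inf (by omega), fun i hi => ?_⟩, ?_⟩
  · have e1 : a i ≤ Nat.nth p i := by
      rw [← Nat.count_le_iff_le_nth inf, Nat.count_eq_card_filter_range]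
      refine le_trans (card_le_card (t := (range i).image a) fun x hx => ?_)
        (card_image_le.trans (by simp))
      rw [mem_filter, mem_range] at hx
      obtain ⟨j, hj, rfl⟩ := (p1 x (hx.1.le.trans (le _ _ (by omega) le_rfl))).1 hx.2
      exact mem_image_of_mem _ (mem_range.2 (lt_of h.2.1 hj hx.1 (by omega)))
    have e2 : i + b + 1 ≤ Nat.count p (a i + c + 1) := by
      rw [Nat.count_eq_card_filter_range]
      refine le_trans ?_ (card_le_card (s := (range (i + b + 1)).image a) fun x hx => ?_)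
      · rw [card_image_of_injOn, card_range]
        intro x hx y hy e
        simp only [coe_range, Set.mem_Iio] at hx hy
        rcases lt_trichotomy x y with l | l | l
        · have := mono h.2.1 l (by omega); omega
        · exact l
        · have := mono h.2.1 l (by omega); omega
      · obtain ⟨j, hj, rfl⟩ := mem_image.1 hx
        rw [mem_range] at hj
        have := le j (i + b) (by omega) (by omega)
        have := h.2.2 i (by omega)
        exact mem_filter.2 ⟨mem_range.2 (by omega),
          (p1 _ (le _ _ (by omega) le_rfl)).2 ⟨j, by omega, rfl⟩⟩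
    have e3 := small hk hc h h' (n - b) (by omega)
    have e4 := h.2.2 (n - b) (by omega)
    rw [show n - b + b = n by omega] at e4
    have e5 := win (a i + c + 1) (by omega) k
    have : Nat.nth p (i + (b + k)) < a i + c + 1 + k + k := by
      rw [← Nat.lt_nth_iff_count_lt inf]; omega
    omega
  · rintro ⟨i, j, -, -, e⟩
    have q1 := Nat.nth_mem_of_infinite inf i
    have q2 := Nat.nth_mem_of_infinite inf j
    rw [e] at q2
    by_cases l : a n < Nat.nth p i + k
    · exact (p2 _ l).1 q2 q1
    · obtain ⟨x, hx, ex⟩ := (p1 _ (by omega)).1 q1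
      obtain ⟨y, hy, ey⟩ := (p1 _ (by omega)).1 q2
      exact h' ⟨x, y, lt_of h.2.1 hx (by omega) hy, hy, by omega⟩

theorem result (b c k : ℕ) (hb : 0 < b) (hk : 0 < k) (h1 : b ≤ c) (h2 : c < 2 * b) :
    ∃ N, IsLeast (Good b c k) N ∧ IsLeast (Good (b + k) (c + 2 * k) k) (N + k) := by
  classical
  have ex : ∃ n, n ∈ Good b c k := by
    refine ⟨b + k + 1, by omega, fun a ha => ?_⟩
    by_contra c
    have := small hk h2 ha c (k + 1) (by omega)
    have := window hk ha.2.1 c 1 (by omega)
    have := ha.2.1 0 (by omega)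
    rw [add_comm 1 k] at *
    omega
  have N := Nat.find_spec ex
  refine ⟨Nat.find ex, ⟨N, fun n hn => Nat.find_min' ex hn⟩, ⟨by omega, fun a ha => ?_⟩, ?_⟩
  · by_contra c
    obtain ⟨i, j, e1, e2, e3⟩ := N.2 a ⟨ha.1, fun i hi => ha.2.1 i (by omega), fun i hi => by
      have := window hk ha.2.1 c (i + b) (by omega)
      have := ha.2.2 i (by omega)
      rw [← add_assoc] at this
      omega⟩
    exact c ⟨i, j, e1, by omega, e3⟩
  · rintro n ⟨n0, hn⟩
    by_contra c'
    have : ∃ a, Adm b c (Nat.find ex - 1) a ∧ ¬ Hits k (Nat.find ex - 1) a := by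
      by_cases e : Nat.find ex - 1 = 0
      · rw [e]
        exact ⟨fun _ => 0, ⟨rfl, by simp, by simp⟩, by rintro ⟨i, j, _, _, _⟩; omega⟩
      · by_contra cc
        push Not at cc
        exact Nat.find_min ex (m := Nat.find ex - 1) (by omega) ⟨by omega, cc⟩
    obtain ⟨a, a1, a2⟩ := this
    obtain ⟨a', b1, b2⟩ := extend hk h2 a1 a2
    have := N.1
    obtain ⟨i, j, e1, e2, e3⟩ := hn a' ⟨b1.1, fun i hi => b1.2.1 i (by omega),
      fun i hi => b1.2.2 i (by omega)⟩
    exact b2 ⟨i, j, e1, by omega, e3⟩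

end Pool.Agent.Results.MP_2aafb6_co.Shift
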